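import Pool.Agent.T9h20.TG.Spec
import Pool.Agent.T9h89.TF.Bd

/-!
# Project TG (MP_97f157_lc), piece (B): the bound in the complex plane for changed coefficients
-/

set_option autoImplicit false

open MeasureTheory Set Filter Topology

namespace Pool.Agent.T9h89.TG

open Pool.Agent.T9h20.TA (mon mx sel isSel_sel)
open Pool.Agent.T9h20.TF (Fr Fc MM)
open Pool.Agent.T9h20.TG
open Pool.Agent.T9h89.TF (mon_le_mx mx_nonneg abs_mon)

theorem norm_fac_le2 {t : ℕ} [NeZero t] (c c' a : Fin t → ℝ) (h : ∀ s, |c' s| ≤ 2 * |c s|) (z : ℂ) :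
    ‖∑ s, (c' s : ℂ) * Complex.exp (a s * z)‖ ≤ (2 * t) * mx c a z.re := by
  refine (norm_sum_le _ _).trans ?_
  have h : ∀ s ∈ (Finset.univ : Finset (Fin t)), ‖(c' s : ℂ) * Complex.exp (a s * z)‖ ≤
      2 * mx c a z.re := by
    intro s _
    rw [norm_mul, Complex.norm_real, Complex.norm_exp, Real.norm_eq_abs]
    have h1 : ((a s : ℂ) * z).re = a s * z.re := by simp
    rw [h1]
    have h2 := mon_le_mx c a s z.re
    rw [abs_mon] at h2
    calc |c' s| * Real.exp (a s * z.re) ≤ (2 * |c s|) * Real.exp (a s * z.re) :=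
        mul_le_mul_of_nonneg_right (h s) (Real.exp_pos _).le
      _ = 2 * (|c s| * Real.exp (a s * z.re)) := by ring
      _ ≤ 2 * mx c a z.re := by linarith
  refine (Finset.sum_le_card_nsmul _ _ _ h).trans ?_
  rw [Finset.card_univ, Fintype.card_fin, nsmul_eq_mul]
  apply le_of_eq
  ring

/-- **(B)** -/
theorem sBdU : SBdU := by
  intro k q t m _ b d al c c' a hm hc z
  unfold Fc
  refine (norm_sum_le _ _).trans ?_
  rw [Finset.mul_sum]
  apply Finset.sum_le_sum
  intro i _
  have ht : (1 : ℝ) ≤ 2 * t := by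
    have : (1 : ℝ) ≤ t := by exact_mod_cast Nat.one_le_iff_ne_zero.2 (NeZero.ne t)
    linarith
  rw [norm_mul, norm_mul, Complex.norm_real, Complex.norm_exp, Real.norm_eq_abs, norm_prod]
  have h1 : ((d i : ℂ) * z).re = d i * z.re := by simp
  rw [h1]
  have h2 : ∏ j, ‖(∑ s, (c' j s : ℂ) * Complex.exp (a j s * z)) ^ al i j‖ ≤
      (2 * t : ℝ) ^ m * ∏ j, mx (c j) (a j) z.re ^ al i j := by
    calc ∏ j, ‖(∑ s, (c' j s : ℂ) * Complex.exp (a j s * z)) ^ al i j‖ ≤
        ∏ j, ((2 * t) * mx (c j) (a j) z.re) ^ al i j := by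
          apply Finset.prod_le_prod
          · intro j _
            exact norm_nonneg _
          · intro j _
            rw [norm_pow]
            exact pow_le_pow_left₀ (norm_nonneg _) (norm_fac_le2 _ _ _ (hc j) z) _
      _ = (2 * t : ℝ) ^ (∑ j, al i j) * ∏ j, mx (c j) (a j) z.re ^ al i j := by
          simp_rw [mul_pow (2 * (t : ℝ))]
          rw [Finset.prod_mul_distrib, Finset.prod_pow_eq_pow_sum]
      _ ≤ (2 * t : ℝ) ^ m * ∏ j, mx (c j) (a j) z.re ^ al i j := by
          apply mul_le_mul_of_nonneg_right _ (Finset.prod_nonneg fun j _ => pow_nonneg (mx_nonneg _ _ _) _)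
          exact pow_le_pow_right₀ ht (hm i)
  calc |b i| * Real.exp (d i * z.re) * ∏ j, ‖(∑ s, (c' j s : ℂ) * Complex.exp (a j s * z)) ^ al i j‖ ≤
      |b i| * Real.exp (d i * z.re) * ((2 * t : ℝ) ^ m * ∏ j, mx (c j) (a j) z.re ^ al i j) :=
        mul_le_mul_of_nonneg_left h2 (by positivity)
    _ = (2 * t : ℝ) ^ m * MM b d al c a i z.re := by
        unfold MM
        ring

end Pool.Agent.T9h89.TG
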