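import Pool.Agent.T9h20.TG.Spec2

/-!
# Project TG (MP_97f157_lc), piece (CG): covering near the points of `B`
-/

set_option autoImplicit false

open MeasureTheory Set Filter Topology

namespace Pool.Agent.T9h89.TG

open Pool.Agent.T9h20.TG

theorem covG_one (h : SCov) (B : Finset ℝ) (η G p r : ℝ) (hη : 0 < η) (hG : 0 < G)
    (hB : ∀ b ∈ B, p ≤ b ∧ b ≤ r) (b0 : ℝ) (hb0 : b0 ∈ B) :
    ∃ X : Finset ℝ, (∀ x ∈ X, p ≤ x ∧ x ≤ r) ∧
      (X.card : ℝ) ≤ 20 * B.card * Real.log (1 + 4 * G / η) + 1 ∧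
      ∀ y ∈ Icc p r, |y - b0| < G → ∃ x ∈ X, ∀ b ∈ B, |y - x| ≤ (η + |x - b|) / 8 := by
  classical
  obtain ⟨hpb, hbr⟩ := hB b0 hb0
  set p' := max p (b0 - G) with hp'
  set r' := min r (b0 + G) with hr'
  have a1 : p ≤ p' := le_max_left _ _
  have a2 : b0 - G ≤ p' := le_max_right _ _
  have a3 : r' ≤ r := min_le_left _ _
  have a4 : r' ≤ b0 + G := min_le_right _ _
  have a5 : p' ≤ b0 := max_le hpb (by linarith)
  have a6 : b0 ≤ r' := le_min hbr (by linarith)
  let B1 := B.filter (fun b => |b - b0| ≤ 2 * G)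
  let B' := B1.image (fun b => b - b0)
  obtain ⟨X', hX1, hX2, hX3⟩ := h B' η (2 * G) (p' - b0) (r' - b0) hη (by linarith) (by linarith)
    (by linarith) (by linarith) (by
      intro b hb
      obtain ⟨b1, hb1, rfl⟩ := Finset.mem_image.1 hb
      exact (Finset.mem_filter.1 hb1).2)
  refine ⟨X'.image (fun x => x + b0), ?_, ?_, ?_⟩
  · intro x hx
    obtain ⟨x', hx', rfl⟩ := Finset.mem_image.1 hx
    obtain ⟨h1, h2⟩ := hX1 x' hx'
    constructor
    · linarith
    · linarith
  · have h1 : ((X'.image (fun x => x + b0)).card : ℝ) ≤ X'.card := by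
      exact_mod_cast Finset.card_image_le
    have h2 : (B'.card : ℝ) ≤ B.card := by
      exact_mod_cast Finset.card_image_le.trans (Finset.card_filter_le _ _)
    have h3 : 0 ≤ Real.log (1 + 4 * G / η) := by
      apply Real.log_nonneg
      have : 0 ≤ 4 * G / η := by positivity
      linarith
    have h4 : 2 * (2 * G) / η = 4 * G / η := by ring
    rw [h4] at hX2
    have h5 : 20 * (B'.card : ℝ) * Real.log (1 + 4 * G / η) ≤
        20 * B.card * Real.log (1 + 4 * G / η) :=
      mul_le_mul_of_nonneg_right (by linarith) h3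
    linarith
  · intro y hy hyb
    obtain ⟨h1, h2⟩ := abs_lt.1 hyb
    have h3 : y - b0 ∈ Icc (p' - b0) (r' - b0) := by
      constructor
      · have : p' ≤ y := max_le hy.1 (by linarith)
        linarith
      · have : y ≤ r' := le_min hy.2 (by linarith)
        linarith
    obtain ⟨x', hx', hx2⟩ := hX3 _ h3
    refine ⟨x' + b0, Finset.mem_image.2 ⟨x', hx', rfl⟩, ?_⟩
    intro b hb
    have e1 : y - (x' + b0) = y - b0 - x' := by ring
    rw [e1]
    by_cases hfar : |b - b0| ≤ 2 * G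
    · have hb' : b - b0 ∈ B' := Finset.mem_image.2 ⟨b, Finset.mem_filter.2 ⟨hb, hfar⟩, rfl⟩
      have h4 := hx2 _ hb'
      have e2 : x' + b0 - b = x' - (b - b0) := by ring
      rw [e2]
      exact h4
    · push Not at hfar
      have hb' : b0 - b0 ∈ B' :=
        Finset.mem_image.2 ⟨b0, Finset.mem_filter.2 ⟨hb0, by
          rw [sub_self, abs_zero]
          linarith⟩, rfl⟩
      have h4 := hx2 _ hb'
      rw [sub_self, sub_zero] at h4
      obtain ⟨h5, h6⟩ := hX1 x' hx'
      have h7 : |x'| ≤ G := abs_le.2 ⟨by linarith, by linarith⟩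
      have h8 : |x'| ≤ |x' + b0 - b| := by
        have h9 : |b - b0| ≤ |x'| + |x' + b0 - b| := by
          have e3 : b - b0 = x' - (x' + b0 - b) := by ring
          rw [e3]
          exact abs_sub _ _
        linarith
      linarith

/-- **(CG)** -/
theorem sCovG : SCov → SCovG := by
  classical
  intro h B η G p r hη hG hpr hB
  choose! X hX1 hX2 hX3 using fun b0 (hb0 : b0 ∈ B) => covG_one h B η G p r hη hG hB b0 hb0
  refine ⟨B.biUnion X, ?_, ?_, ?_⟩
  · intro x hx
    obtain ⟨b0, hb0, hx0⟩ := Finset.mem_biUnion.1 hx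
    exact hX1 b0 hb0 x hx0
  · have h1 : ((B.biUnion X).card : ℝ) ≤ ∑ b ∈ B, ((X b).card : ℝ) := by
      exact_mod_cast Finset.card_biUnion_le
    refine h1.trans ?_
    refine (Finset.sum_le_card_nsmul _ _ _ hX2).trans ?_
    rw [nsmul_eq_mul]
  · rintro y hy ⟨b0, hb0, hyb⟩
    obtain ⟨x, hx, hx2⟩ := hX3 b0 hb0 y hy hyb
    exact ⟨x, Finset.mem_biUnion.2 ⟨b0, hb0, hx⟩, hx2⟩

end Pool.Agent.T9h89.TG
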