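import Pool.Agent.T9h20.TG.Spec2
import Pool.Agent.T9h89.TF.Bd

/-!
# Project TG (MP_97f157_lc), piece (FA): one factor at distance at least `G` from the ends of a block
-/

set_option autoImplicit false

open MeasureTheory Set Filter Topology

namespace Pool.Agent.T9h89.TG

open Pool.Agent.T9h20.TA (mon mx sel isSel_sel)
open Pool.Agent.T9h20.TE (DD)
open Pool.Agent.T9h20.TG
open Pool.Agent.T9h89.TF (mon_le_mx mx_nonneg abs_mon)

theorem fac_dom {t : ℕ} (c : Fin t → ℝ) (a : Fin t → ℕ) (s0 s : Fin t) (p r G y : ℝ) (hG : 0 ≤ G)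
    (hp : p ∈ DD c (fun s => (a s : ℝ)) s0) (hr : r ∈ DD c (fun s => (a s : ℝ)) s0)
    (h1 : p + G ≤ y) (h2 : y + G ≤ r) :
    |mon c (fun s => (a s : ℝ)) s y| ≤ |mon c (fun s => (a s : ℝ)) s0 y| ∧
    (a s ≠ a s0 → |mon c (fun s => (a s : ℝ)) s y| ≤
      Real.exp (-G) * |mon c (fun s => (a s : ℝ)) s0 y|) := by
  have hp' := hp s
  have hr' := hr s
  rw [abs_mon, abs_mon] at hp' hr'
  rw [abs_mon, abs_mon]
  -- the two comparisons
  have hP : |c s| * Real.exp (a s * y) ≤
      |c s0| * Real.exp (a s0 * y) * Real.exp (((a s : ℝ) - a s0) * (y - p)) := by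
    have e1 : |c s| * Real.exp (a s * y) = (|c s| * Real.exp (a s * p)) * Real.exp (a s * (y - p)) := by
      rw [mul_assoc, ← Real.exp_add]
      congr 2
      ring
    have e2 : |c s0| * Real.exp (a s0 * y) * Real.exp (((a s : ℝ) - a s0) * (y - p)) =
        (|c s0| * Real.exp (a s0 * p)) * Real.exp (a s * (y - p)) := by
      rw [mul_assoc, mul_assoc, ← Real.exp_add, ← Real.exp_add]
      congr 2
      ring
    rw [e1, e2]
    exact mul_le_mul_of_nonneg_right hp' (Real.exp_pos _).le
  have hR : |c s| * Real.exp (a s * y) ≤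
      |c s0| * Real.exp (a s0 * y) * Real.exp (((a s0 : ℝ) - a s) * (r - y)) := by
    have e1 : |c s| * Real.exp (a s * y) = (|c s| * Real.exp (a s * r)) * Real.exp (-(a s * (r - y))) := by
      rw [mul_assoc, ← Real.exp_add]
      congr 2
      ring
    have e2 : |c s0| * Real.exp (a s0 * y) * Real.exp (((a s0 : ℝ) - a s) * (r - y)) =
        (|c s0| * Real.exp (a s0 * r)) * Real.exp (-(a s * (r - y))) := by
      rw [mul_assoc, mul_assoc, ← Real.exp_add, ← Real.exp_add]
      congr 2
      ring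
    rw [e1, e2]
    exact mul_le_mul_of_nonneg_right hr' (Real.exp_pos _).le
  have hM : 0 ≤ |c s0| * Real.exp (a s0 * y) := by positivity
  have key : a s ≠ a s0 → |c s| * Real.exp (a s * y) ≤
      Real.exp (-G) * (|c s0| * Real.exp (a s0 * y)) := by
    intro hne
    rcases lt_or_gt_of_ne hne with h | h
    · refine hP.trans ?_
      rw [mul_comm (Real.exp (-G))]
      apply mul_le_mul_of_nonneg_left _ hM
      apply Real.exp_le_exp.2
      have h3 : (a s : ℝ) + 1 ≤ a s0 := by exact_mod_cast h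
      nlinarith
    · refine hR.trans ?_
      rw [mul_comm (Real.exp (-G))]
      apply mul_le_mul_of_nonneg_left _ hM
      apply Real.exp_le_exp.2
      have h3 : (a s0 : ℝ) + 1 ≤ a s := by exact_mod_cast h
      nlinarith
  refine ⟨?_, key⟩
  by_cases hne : a s = a s0
  · have := hP
    rw [hne, sub_self, zero_mul, Real.exp_zero, mul_one] at this
    rw [hne]
    exact this
  · refine (key hne).trans ?_
    have h4 : Real.exp (-G) ≤ 1 := Real.exp_le_one_iff.2 (by linarith)
    calc Real.exp (-G) * (|c s0| * Real.exp (a s0 * y)) ≤ 1 * (|c s0| * Real.exp (a s0 * y)) :=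
        mul_le_mul_of_nonneg_right h4 hM
      _ = _ := one_mul _

theorem sum_filter_le {t : ℕ} (f : Fin t → ℝ) (K : ℝ) (hK : 0 ≤ K) (S : Finset (Fin t))
    (h : ∀ s ∈ S, |f s| ≤ K) : |∑ s ∈ S, f s| ≤ t * K := by
  refine (Finset.abs_sum_le_sum_abs _ _).trans ?_
  refine (Finset.sum_le_card_nsmul _ _ _ h).trans ?_
  rw [nsmul_eq_mul]
  apply mul_le_mul_of_nonneg_right _ hK
  have h1 := Finset.card_le_univ S
  rw [Fintype.card_fin] at h1
  exact_mod_cast h1

/-- **(FA)** -/
theorem sFac : SFac := by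
  intro t _ c c' a s0 p r G y hG hc hp hr h1 h2
  have hdom := fun s => fac_dom c a s0 s p r G y hG hp hr h1 h2
  have hmx := mon_le_mx c (fun s => (a s : ℝ)) s0 y
  have hmx0 := mx_nonneg c (fun s => (a s : ℝ)) y
  have hc' : ∀ s, |mon c' (fun s => (a s : ℝ)) s y| ≤ 2 * |mon c (fun s => (a s : ℝ)) s y| := by
    intro s
    rw [abs_mon, abs_mon, ← mul_assoc]
    exact mul_le_mul_of_nonneg_right (hc s) (Real.exp_pos _).le
  have hall : ∀ s, |mon c' (fun s => (a s : ℝ)) s y| ≤ 2 * mx c (fun s => (a s : ℝ)) y := by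
    intro s
    have := hc' s
    have := (hdom s).1
    linarith
  have hfil : Real.exp (a s0 * y) * ∑ s ∈ Finset.univ.filter (fun s => a s = a s0), c' s =
      ∑ s ∈ Finset.univ.filter (fun s => a s = a s0), mon c' (fun s => (a s : ℝ)) s y := by
    rw [Finset.mul_sum]
    apply Finset.sum_congr rfl
    intro s hs
    rw [Finset.mem_filter] at hs
    unfold mon
    change Real.exp (a s0 * y) * c' s = c' s * Real.exp ((a s : ℝ) * y)
    rw [hs.2]
    ring
  refine ⟨?_, ?_, ?_⟩
  · refine (sum_filter_le _ _ (by positivity) _ fun s _ => hall s).trans (le_of_eq ?_)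
    ring
  · rw [hfil]
    refine (sum_filter_le _ _ (by positivity) _ fun s _ => hall s).trans (le_of_eq ?_)
    ring
  · rw [hfil, ← Finset.sum_filter_add_sum_filter_not Finset.univ (fun s => a s = a s0),
      add_sub_cancel_left]
    have h3 : ∀ s ∈ Finset.univ.filter (fun s => ¬ a s = a s0), |mon c' (fun s => (a s : ℝ)) s y| ≤
        Real.exp (-G) * (2 * mx c (fun s => (a s : ℝ)) y) := by
      intro s hs
      rw [Finset.mem_filter] at hs
      have h4 := (hdom s).2 hs.2
      have h5 := hc' s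
      have h6 : Real.exp (-G) * |mon c (fun s => (a s : ℝ)) s0 y| ≤
          Real.exp (-G) * mx c (fun s => (a s : ℝ)) y :=
        mul_le_mul_of_nonneg_left hmx (Real.exp_pos _).le
      linarith
    refine (sum_filter_le _ _ (by positivity) _ h3).trans (le_of_eq ?_)
    ring

end Pool.Agent.T9h89.TG
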