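import Pool.Agent.T9h20.TG.Spec

/-!
# Project TG (MP_97f157_lc), piece (P): the value as a polynomial in the factors
-/

set_option autoImplicit false

open Function

namespace Pool.Agent.T9h89.TG

open Pool.Agent.T9h20.TG MvPolynomial

theorem coeff_kill {σ τ : Type} (e : σ → τ) (he : Injective e) (w : σ →₀ ℕ)
    (P : MvPolynomial τ ℝ) : coeff w (killCompl he P) = coeff (w.mapDomain e) P := by
  classical
  induction P using MvPolynomial.induction_on' with
  | monomial u a =>
    by_cases h : ∃ w' : σ →₀ ℕ, w'.mapDomain e = u
    · obtain ⟨w', rfl⟩ := h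
      rw [← rename_monomial, killCompl_rename_app, rename_monomial, coeff_monomial, coeff_monomial]
      have h1 : (w' = w) ↔ (w'.mapDomain e = w.mapDomain e) :=
        ⟨fun h => by rw [h], fun h => Finsupp.mapDomain_injective he h⟩
      by_cases h2 : w' = w
      · rw [if_pos h2, if_pos (h1.1 h2)]
      · rw [if_neg h2, if_neg fun h3 => h2 (h1.2 h3)]
    · have h1 : coeff (w.mapDomain e) (monomial u a) = 0 := by
        rw [coeff_monomial, if_neg]
        intro h2
        exact h ⟨w, h2.symm⟩
      rw [h1]
      have h2 : ∃ x ∈ u.support, x ∉ Set.range e := by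
        by_contra hcon
        push Not at hcon
        exact h ⟨_, Finsupp.mapDomain_comapDomain e he u hcon⟩
      obtain ⟨x, hx, hxe⟩ := h2
      have h3 : killCompl he (monomial u a) = 0 := by
        rw [monomial_eq, map_mul, Finsupp.prod, map_prod]
        have h4 : killCompl (R := ℝ) he (X x ^ u x) = 0 := by
          rw [map_pow]
          unfold killCompl
          rw [aeval_X, dif_neg hxe, zero_pow (Finsupp.mem_support_iff.1 hx)]
        rw [Finset.prod_eq_zero hx h4, mul_zero]
      rw [h3, coeff_zero]
  | add p q hp hq => rw [map_add, coeff_add, coeff_add, hp, hq]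

/-- **(P)** -/
theorem sPoly : SPoly := by
  classical
  intro k q t m B al A hal hm
  let P : MvPolynomial (Fin q × Fin t) ℝ :=
    ∑ i, C (B i) * ∏ j, (∑ s, C (A j s) * X (j, s)) ^ al i j
  refine ⟨P, ?_, ?_, ?_⟩
  · intro z
    change eval z (∑ i, C (B i) * ∏ j, (∑ s, C (A j s) * X (j, s)) ^ al i j) = _
    simp only [map_sum, map_mul, map_prod, map_pow, eval_C, eval_X]
  · intro r
    refine (degreeOf_le_totalDegree P r).trans ?_
    refine (totalDegree_finsetSum _ _).trans ?_
    apply Finset.sup_le
    intro i _
    refine (totalDegree_mul _ _).trans ?_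
    rw [totalDegree_C, zero_add]
    refine (totalDegree_finsetProd _ _).trans ?_
    refine le_trans ?_ (hm i)
    apply Finset.sum_le_sum
    intro j _
    refine (totalDegree_pow _ _).trans ?_
    have h1 : (∑ s, C (A j s) * X (j, s) : MvPolynomial (Fin q × Fin t) ℝ).totalDegree ≤ 1 := by
      refine (totalDegree_finsetSum _ _).trans ?_
      apply Finset.sup_le
      intro s _
      refine (totalDegree_mul _ _).trans ?_
      rw [totalDegree_C, zero_add, totalDegree_X]
    calc al i j * _ ≤ al i j * 1 := Nat.mul_le_mul_left _ h1
      _ = al i j := mul_one _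
  · intro i s
    let e : Fin q → Fin q × Fin t := fun j => (j, s j)
    have he : Injective e := fun j j' h => congrArg Prod.fst h
    refine ⟨(Finsupp.equivFunOnFinite.symm (al i)).mapDomain e, ?_⟩
    rw [← coeff_kill e he]
    have h1 : killCompl he P = ∑ i', monomial (Finsupp.equivFunOnFinite.symm (al i'))
        (B i' * ∏ j, A j (s j) ^ al i' j) := by
      change killCompl he (∑ i, C (B i) * ∏ j, (∑ s, C (A j s) * X (j, s)) ^ al i j) = _
      rw [map_sum]
      apply Finset.sum_congr rfl
      intro i' _
      rw [map_mul, map_prod, killCompl_C, monomial_eq, Finsupp.prod_fintype _ _ (by simp)]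
      rw [C_mul, map_prod C, mul_assoc, ← Finset.prod_mul_distrib]
      congr 1
      apply Finset.prod_congr rfl
      intro j _
      rw [map_pow, map_sum]
      have h2 : ∑ s', killCompl he (C (A j s') * X (j, s')) = C (A j (s j)) * (X j : MvPolynomial (Fin q) ℝ) := by
        rw [Finset.sum_eq_single (s j)]
        · rw [map_mul, killCompl_C]
          congr 1
          have h3 : (X (j, s j) : MvPolynomial (Fin q × Fin t) ℝ) = rename e (X j) := by
            rw [rename_X]
          rw [h3, killCompl_rename_app]
        · intro s' _ hs'
          rw [map_mul]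
          have h4 : killCompl (R := ℝ) he (X (j, s')) = 0 := by
            unfold killCompl
            rw [aeval_X, dif_neg]
            rintro ⟨j', hj'⟩
            have h5 : j' = j := congrArg Prod.fst hj'
            have h6 : s j' = s' := congrArg Prod.snd hj'
            rw [h5] at h6
            exact hs' h6.symm
          rw [h4, mul_zero]
        · intro h
          exact absurd (Finset.mem_univ _) h
      rw [h2, mul_pow, map_pow]
      rfl
    rw [h1, coeff_sum, Finset.sum_eq_single i]
    · rw [coeff_monomial, if_pos rfl]
    · intro i' _ hi'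
      rw [coeff_monomial, if_neg]
      intro h2
      exact hi' (hal (Finsupp.equivFunOnFinite.symm.injective h2))
    · intro h
      exact absurd (Finset.mem_univ _) h

end Pool.Agent.T9h89.TG
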